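import Pool.Agent.Helper10.K3.SysDefs

/-!
# Module A of the local system modules: perturbations
-/

namespace KumWA

open Classical

section finiteness

variable {K : Type*} [Field K] [CharZero K]

omit [CharZero K] in
/-- finitely many points with a given x-coordinate -/
theorem finite_xc {d : K} (a : K) : {P : E d | P ≠ 0 ∧ xc P = a}.Finite := by
  by_cases h : ∃ P₀ : E d, P₀ ≠ 0 ∧ xc P₀ = a
  · obtain ⟨P₀, h0, h1⟩ := h
    apply (Set.toFinite ({P₀, -P₀} : Set (E d))).subset
    rintro P ⟨hP, hx⟩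
    have := (xc_eq_iff hP h0).1 (hx.trans h1.symm)
    simpa using this
  · convert Set.finite_empty (α := E d)
    ext P
    simp only [Set.mem_ofPred_eq, Set.mem_empty_iff_false, iff_false]
    exact fun hP => h ⟨P, hP⟩

omit [CharZero K] in
/-- finitely many points whose normalised x-coordinate is a root of a polynomial -/
theorem finite_root {d : K} (hd : d ≠ 0) {f : Polynomial K} (hf : f ≠ 0) :
    {P : E d | P ≠ 0 ∧ f.eval (xc P / d) = 0}.Finite := by
  have h1 : (⋃ a ∈ f.roots.toFinset, {P : E d | P ≠ 0 ∧ xc P = a * d}).Finite :=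
    Set.Finite.biUnion (Finset.finite_toSet _) fun a _ => finite_xc _
  apply h1.subset
  rintro P ⟨hP, hx⟩
  simp only [Set.mem_iUnion, Set.mem_ofPred_eq]
  refine ⟨xc P / d, ?_, hP, ?_⟩
  · rw [Multiset.mem_toFinset, Polynomial.mem_roots hf]
    exact hx
  · field_simp

/-- finitely many points of order two -/
theorem finite_yc {d : K} (hd : d ≠ 0) : {P : E d | P = 0 ∨ yc P = 0}.Finite := by
  have hf : (Polynomial.X ^ 3 + Polynomial.C 4 * Polynomial.X ^ 2 +
      Polynomial.C 2 * Polynomial.X : Polynomial K) ≠ 0 := by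
    intro h
    have h1 := congrArg (fun g => g.coeff 3) h
    simp at h1
  have h1 := finite_root hd hf
  apply (h1.union (Set.finite_singleton (0 : E d))).subset
  intro P hP
  by_cases h0 : P = 0
  · right; exact h0
  · left
    refine ⟨h0, ?_⟩
    have hy : yc P = 0 := hP.resolve_left h0
    have h2 := yc_sq_ff hd P
    rw [hy] at h2
    have h3 : d ^ 3 * ff (xc P / d) = 0 := by rw [← h2]; ring
    have h4 := (mul_eq_zero.1 h3).resolve_left (pow_ne_zero 3 hd)
    unfold ff at h4
    simp only [Polynomial.eval_add, Polynomial.eval_pow, Polynomial.eval_X, Polynomial.eval_mul,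
      Polynomial.eval_C]
    exact h4

/-- finitely many points violate the conditions of the involution -/
theorem finite_IOK {d : K} (hd : d ≠ 0) {x : K} (hx : x ≠ 0) :
    {P : E d | P ≠ 0 ∧ (Dn x (xc P / d) = 0 ∨ x + xc P / d + 4 = 0 ∨
      qn x (xc P / d) = 0)}.Finite := by
  have hf1 : (Polynomial.C (4 * x + 2) * Polynomial.X + Polynomial.C (2 * x) : Polynomial K) ≠ 0 := by
    intro h
    have h1 := congrArg (fun g => g.coeff 0) h
    simp only [Polynomial.coeff_add, Polynomial.coeff_C_mul, Polynomial.coeff_X_zero, mul_zero,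
      zero_add, Polynomial.coeff_C_zero, Polynomial.coeff_zero] at h1
    exact mul_ne_zero two_ne_zero hx h1
  have hf2 : (Polynomial.X + Polynomial.C (x + 4) : Polynomial K) ≠ 0 := by
    intro h
    have h1 := congrArg (fun g => g.coeff 1) h
    simp at h1
  have hf3 : (Polynomial.X ^ 2 + Polynomial.C (-6 * x) * Polynomial.X + Polynomial.C (x ^ 2) :
      Polynomial K) ≠ 0 := by
    intro h
    have h1 := congrArg (fun g => g.coeff 2) h
    simp only [Polynomial.coeff_add, Polynomial.coeff_X_pow, Polynomial.coeff_C_mul,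
      Polynomial.coeff_X, Polynomial.coeff_C, Polynomial.coeff_zero] at h1
    norm_num at h1
  apply ((finite_root hd hf1).union ((finite_root hd hf2).union (finite_root hd hf3))).subset
  rintro P ⟨hP, h | h | h⟩
  · left
    refine ⟨hP, ?_⟩
    simp only [Polynomial.eval_add, Polynomial.eval_mul, Polynomial.eval_X, Polynomial.eval_C]
    unfold Dn at h
    linear_combination h
  · right; left
    refine ⟨hP, ?_⟩
    simp only [Polynomial.eval_add, Polynomial.eval_X, Polynomial.eval_C]
    linear_combination h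
  · right; right
    refine ⟨hP, ?_⟩
    simp only [Polynomial.eval_add, Polynomial.eval_mul, Polynomial.eval_pow, Polynomial.eval_X,
      Polynomial.eval_C]
    unfold qn at h
    have h2 : (2 : K) * (x ^ 2 - 6 * x * (xc P / d) + (xc P / d) ^ 2) = 0 := h
    have h3 := (mul_eq_zero.1 h2).resolve_left two_ne_zero
    linear_combination h3

end finiteness

variable {p : ℕ} [hp : Fact p.Prime]

/-- A1 -/
theorem exists_near_avoid (h8 : p % 8 = 5) {d : ℚ_[p]} (hd : nd d) (B : Set (E d)) (hB : B.Finite)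
    (P : E d) (n : ℕ) : ∃ P' : E d, P' ∉ B ∧ fil n (P' - P) := by
  have hlev : ∀ m : ℕ, ∃ R : E d, lev (n + m) R := fun m => exists_lev h8 hd (n + m)
  choose h hh using hlev
  have hinj : Function.Injective fun m => P + h m := by
    intro m m' he
    have he' : h m = h m' := add_left_cancel he
    have h1 := (hh m).2
    rw [he', (hh m').2] at h1
    rcases lt_trichotomy m m' with hl | hl | hl
    · exact absurd h1 (inv_pow_lt (p := p) (show n + m < n + m' by omega)).ne
    · exact hl
    · exact absurd h1 (inv_pow_lt (p := p) (show n + m' < n + m by omega)).ne'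
  obtain ⟨P', ⟨m, hm⟩, hP'⟩ := (Set.infinite_range_of_injective hinj).exists_notMem_finite hB
  refine ⟨P', hP', ?_⟩
  rw [← hm]
  have : P + h m - P = h m := by abel
  simp only [this]
  exact fil_mono (Nat.le_add_right n m) (hh m).1

/-- A2 : data related by `iota` to something are dense -/
theorem exists_sig_near (h8 : p % 8 = 5) (l : Loc p) (n : ℕ) :
    ∃ l₀ l' : Loc p, SigL l₀ l' ∧ LNear n l' l := by
  obtain ⟨d, hd, Q, R⟩ := l
  have hd0 := nd_ne hd
  obtain ⟨Q', hQ', hfQ⟩ := exists_near_avoid h8 hd _ (finite_yc hd0) Q n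
  rw [Set.mem_ofPred_eq, not_or] at hQ'
  have hx : xc Q' / d ≠ 0 := div_ne_zero (xc_ne_of_yc hQ'.2) hd0
  obtain ⟨R', hR', hfR⟩ := exists_near_avoid h8 hd _
    ((finite_yc hd0).union (finite_IOK hd0 hx)) R n
  simp only [Set.mem_union, Set.mem_ofPred_eq, not_or, not_and] at hR'
  obtain ⟨⟨hR0, hyR⟩, hI⟩ := hR'
  have hI' := hI hR0
  have hrep := rep_mkPt hd0 hQ'.2 hyR
  have hIOK : IOK (mkPt hd0 Q' R' hQ'.2 hyR) := hI'
  obtain ⟨d₀, P₀, Q₀, hd₀, hr⟩ := exists_rep (iota (mkPt hd0 Q' R' hQ'.2 hyR) hIOK)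
  refine ⟨⟨d₀, hd₀, P₀, Q₀⟩, ⟨d, hd, Q', R'⟩, ?_, ⟨Q', R', rfl, hfQ, hfR⟩⟩
  apply SigL.symm
  exact ⟨_, hIOK, hrep, hr⟩

end KumWA
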