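import Pool.Agent.Helper60.SB.Defs3

/-!
Module U11: uniqueness of Fourier coefficients for integrable functions.
-/

open Finset MeasureTheory
open scoped ENNReal Real

namespace Pool.Agent.Helper89.SB

open Pool.Agent.Helper60.SB

/-- the map to the circle -/
noncomputable def phi (x : ℝ) : UnitAddCircle := ((x / (2 * π) : ℝ) : UnitAddCircle)

/-- the section of the map to the circle -/
noncomputable def psi (t : UnitAddCircle) : ℝ := 2 * π * ((AddCircle.equivIco (1 : ℝ) 0 t : ℝ))

lemma measurable_psi : Measurable psi := by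
  have h : Measurable fun t : UnitAddCircle => ((AddCircle.measurableEquivIco 1 0 t : ℝ)) :=
    measurable_subtype_coe.comp (AddCircle.measurableEquivIco 1 0).measurable
  exact h.const_mul _

lemma psi_phi {x : ℝ} (hx : x ∈ Set.Ico 0 (2 * π)) : psi (phi x) = x := by
  have hpi := Real.two_pi_pos
  have h1 : x / (2 * π) ∈ Set.Ico (0 : ℝ) (0 + 1) := by
    rw [zero_add]
    exact ⟨div_nonneg hx.1 hpi.le, (div_lt_one hpi).2 hx.2⟩
  unfold psi phi
  rw [AddCircle.equivIco_coe_eq h1]
  field_simp

lemma phi_psi (t : UnitAddCircle) : phi (psi t) = t := by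
  have hpi := Real.two_pi_pos
  unfold psi phi
  rw [mul_div_cancel_left₀ _ hpi.ne']
  exact AddCircle.coe_equivIco

lemma mp_phi : MeasurePreserving phi tor1 volume := by
  have hpi := Real.two_pi_pos
  have hm : Measurable fun x : ℝ => x * (2 * π)⁻¹ := by fun_prop
  have h1 : Measure.map (fun x : ℝ => x * (2 * π)⁻¹) tor1 = volume.restrict (Set.Ioc 0 (0 + 1)) := by
    unfold tor1
    rw [Measure.map_smul]
    have hpre : (fun x : ℝ => x * (2 * π)⁻¹) ⁻¹' (Set.Ico 0 1) = Set.Ico 0 (2 * π) := by
      ext x
      simp only [Set.mem_preimage, Set.mem_Ico]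
      rw [← div_eq_mul_inv, div_lt_one hpi, le_div_iff₀ hpi, zero_mul]
    rw [← hpre, ← Measure.restrict_map hm measurableSet_Ico]
    rw [Real.map_volume_mul_right (inv_ne_zero hpi.ne'), Measure.restrict_smul, smul_smul]
    rw [inv_inv, abs_of_pos hpi, ENNReal.inv_mul_cancel, one_smul, zero_add]
    · exact Measure.restrict_congr_set Ico_ae_eq_Ioc
    · simpa using hpi
    · exact ENNReal.ofReal_ne_top
  have h2 : MeasurePreserving (fun x : ℝ => x * (2 * π)⁻¹) tor1
      (volume.restrict (Set.Ioc 0 (0 + 1))) := ⟨hm, h1⟩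
  have h3 := (AddCircle.measurePreserving_mk 1 0).comp h2
  have h4 : phi = (QuotientAddGroup.mk : ℝ → UnitAddCircle) ∘ fun x : ℝ => x * (2 * π)⁻¹ := by
    funext x
    simp only [phi, Function.comp_apply, div_eq_mul_inv]
  rw [h4]
  exact h3

lemma ae_Ico : ∀ᵐ x ∂tor1, x ∈ Set.Ico 0 (2 * π) := by
  unfold tor1
  apply Measure.ae_smul_measure
  exact ae_restrict_mem measurableSet_Ico

lemma mp_psi : MeasurePreserving psi volume tor1 := by
  refine ⟨measurable_psi, ?_⟩
  rw [← mp_phi.map_eq, Measure.map_map measurable_psi mp_phi.measurable]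
  have : psi ∘ phi =ᵐ[tor1] id := by
    filter_upwards [ae_Ico] with x hx
    exact psi_phi hx
  rw [Measure.map_congr this, Measure.map_id]

instance : IsFiniteMeasure tor1 := by
  unfold tor1
  constructor
  rw [Measure.smul_apply, smul_eq_mul]
  apply ENNReal.mul_lt_top
  · rw [ENNReal.inv_lt_top]
    simpa using Real.pi_pos
  · rw [Measure.restrict_apply_univ, Real.volume_Ico]
    exact ENNReal.ofReal_lt_top

variable {d : ℕ}

lemma mp_Psi : MeasurePreserving (fun (t : UnitAddTorus (Fin d)) j => psi (t j)) volume (tor d) :=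
  measurePreserving_pi _ _ fun _ => mp_psi

lemma mp_Phi : MeasurePreserving (fun (x : Fin d → ℝ) j => phi (x j)) (tor d)
    (volume : Measure (UnitAddTorus (Fin d))) :=
  measurePreserving_pi _ _ fun _ => mp_phi

lemma ae_box : ∀ᵐ x ∂(tor d), ∀ j, psi (phi (x j)) = x j := by
  rw [ae_all_iff]
  intro j
  have h1 : ∀ᵐ x ∂tor1, psi (phi x) = x := by
    filter_upwards [ae_Ico] with x hx
    exact psi_phi hx
  exact (Measure.quasiMeasurePreserving_eval (fun _ : Fin d => tor1) j).ae h1

lemma mFourier_eq (k : Fin d → ℤ) (t : UnitAddTorus (Fin d)) :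
    UnitAddTorus.mFourier k t = ex k fun j => psi (t j) := by
  have hpi := Real.two_pi_pos
  unfold UnitAddTorus.mFourier ex
  simp only [ContinuousMap.coe_mk]
  rw [Finset.mul_sum, Complex.exp_sum]
  refine Finset.prod_congr rfl fun j _ => ?_
  have h1 : t j = ((AddCircle.equivIco (1 : ℝ) 0 (t j) : ℝ) : UnitAddCircle) :=
    (AddCircle.coe_equivIco).symm
  conv_lhs => rw [h1]
  rw [fourier_coe_apply]
  congr 1
  unfold psi
  push_cast
  ring

/-- the integral against every continuous function on the torus vanishes -/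
lemma integral_cont_zero {F : UnitAddTorus (Fin d) → ℂ} (hF : Integrable F volume)
    (h : ∀ k : Fin d → ℤ, ∫ t, UnitAddTorus.mFourier k t * F t = 0) (g : C(UnitAddTorus (Fin d), ℂ)) :
    ∫ t, g t * F t = 0 := by
  have hint : ∀ g : C(UnitAddTorus (Fin d), ℂ), Integrable (fun t => g t * F t) volume := by
    intro g
    exact hF.bdd_mul g.continuous.aestronglyMeasurable
      (Filter.Eventually.of_forall fun t => g.norm_coe_le_norm t)
  let S : Submodule ℂ C(UnitAddTorus (Fin d), ℂ) :=
    { carrier := {g | ∫ t, g t * F t = 0}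
      add_mem' := by
        intro a b ha hb
        change ∫ t, (a + b) t * F t = 0
        have : ∀ t, (a + b) t * F t = a t * F t + b t * F t := fun t => by
          rw [ContinuousMap.add_apply]; ring
        simp only [this]
        rw [integral_add (hint a) (hint b)]
        rw [show ∫ t, a t * F t = 0 from ha, show ∫ t, b t * F t = 0 from hb, add_zero]
      zero_mem' := by
        change ∫ t, (0 : C(UnitAddTorus (Fin d), ℂ)) t * F t = 0
        simp
      smul_mem' := by
        intro c a ha
        change ∫ t, (c • a) t * F t = 0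
        have : ∀ t, (c • a) t * F t = c * (a t * F t) := fun t => by
          rw [ContinuousMap.smul_apply, smul_eq_mul]; ring
        simp only [this]
        rw [integral_const_mul, show ∫ t, a t * F t = 0 from ha, mul_zero] }
  have hspan : Submodule.span ℂ (Set.range (UnitAddTorus.mFourier (d := Fin d))) ≤ S := by
    rw [Submodule.span_le]
    rintro _ ⟨k, rfl⟩
    exact h k
  have hcl : g ∈ closure (S : Set C(UnitAddTorus (Fin d), ℂ)) := by
    have h1 : g ∈ (Submodule.span ℂ (Set.range (UnitAddTorus.mFourier (d := Fin d)))).topologicalClosure := by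
      rw [UnitAddTorus.span_mFourier_closure_eq_top]
      trivial
    exact closure_mono hspan h1
  rw [Metric.mem_closure_iff] at hcl
  have hb : ∀ ε > 0, ‖∫ t, g t * F t‖ ≤ ε * ∫ t, ‖F t‖ := by
    intro ε hε
    obtain ⟨b, hbS, hd⟩ := hcl ε hε
    have hb0 : ∫ t, b t * F t = 0 := hbS
    have e : ∫ t, g t * F t = ∫ t, (g t - b t) * F t := by
      have h2 : ∀ t, (g t - b t) * F t = g t * F t - b t * F t := fun t => by ring
      simp only [h2]
      rw [integral_sub (hint g) (hint b), hb0, sub_zero]
    rw [e, ← integral_const_mul]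
    apply norm_integral_le_of_norm_le
    · exact hF.norm.const_mul ε
    · refine Filter.Eventually.of_forall fun t => ?_
      rw [norm_mul]
      apply mul_le_mul_of_nonneg_right _ (norm_nonneg _)
      rw [← dist_eq_norm]
      exact (ContinuousMap.dist_apply_le_dist t).trans hd.le
  have hlim : Filter.Tendsto (fun ε : ℝ => ε * ∫ t, ‖F t‖) (nhdsWithin 0 (Set.Ioi 0)) (nhds 0) := by
    have : Filter.Tendsto (fun ε : ℝ => ε * ∫ t, ‖F t‖) (nhds 0) (nhds (0 * ∫ t, ‖F t‖)) :=
      (Filter.tendsto_id).mul_const _
    rw [zero_mul] at this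
    exact this.mono_left nhdsWithin_le_nhds
  have h0 : ‖∫ t, g t * F t‖ ≤ 0 := by
    apply ge_of_tendsto hlim
    filter_upwards [self_mem_nhdsWithin] with ε hε
    exact hb ε hε
  exact norm_le_zero_iff.1 h0

lemma ae_zero_of_cont {F : UnitAddTorus (Fin d) → ℂ} (hF : Integrable F volume)
    (h : ∀ g : C(UnitAddTorus (Fin d), ℂ), ∫ t, g t * F t = 0) :
    F =ᵐ[(volume : Measure (UnitAddTorus (Fin d)))] 0 := by
  apply ae_eq_zero_of_forall_setIntegral_isClosed_eq_zero hF
  intro s hs
  have hpos : ∀ n : ℕ, (0 : ℝ) < 1 / ((n : ℝ) + 1) := fun n => by positivity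
  have hlim := thickenedIndicator_tendsto_indicator_closure hpos
    tendsto_one_div_add_atTop_nhds_zero_nat s
  rw [hs.closure_eq, tendsto_pi_nhds] at hlim
  have h1 : Filter.Tendsto (fun n : ℕ => ∫ t, (((thickenedIndicator (hpos n) s t : NNReal) : ℝ) : ℂ) * F t)
      Filter.atTop (nhds (∫ t, (((s.indicator (fun _ => (1 : NNReal)) t : NNReal) : ℝ) : ℂ) * F t)) := by
    apply tendsto_integral_of_dominated_convergence (fun t => ‖F t‖)
    · intro n
      apply AEStronglyMeasurable.mul _ hF.aestronglyMeasurable
      apply Continuous.aestronglyMeasurable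
      fun_prop
    · exact hF.norm
    · intro n
      refine Filter.Eventually.of_forall fun t => ?_
      rw [norm_mul]
      apply mul_le_of_le_one_left (norm_nonneg _)
      rw [Complex.norm_real, Real.norm_of_nonneg NNReal.zero_le_coe]
      exact_mod_cast thickenedIndicator_le_one (hpos n) s t
    · refine Filter.Eventually.of_forall fun t => ?_
      apply Filter.Tendsto.mul_const
      have h2 := hlim t
      have h3 : Continuous fun r : NNReal => ((r : ℝ) : ℂ) := by fun_prop
      exact (h3.tendsto _).comp h2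
  have h2 : ∀ n : ℕ, ∫ t, (((thickenedIndicator (hpos n) s t : NNReal) : ℝ) : ℂ) * F t = 0 := by
    intro n
    exact h ⟨fun t => (((thickenedIndicator (hpos n) s t : NNReal) : ℝ) : ℂ), by fun_prop⟩
  simp only [h2] at h1
  have h3 := tendsto_nhds_unique h1 tendsto_const_nhds
  rw [← h3, ← integral_indicator hs.measurableSet]
  congr 1
  funext t
  by_cases ht : t ∈ s <;> simp [ht]

/-- U11: uniqueness of Fourier coefficients for integrable functions -/
theorem fc_unique (d : ℕ) (f : (Fin d → ℝ) → ℂ) (hf : Integrable f (tor d))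
    (h : ∀ k, fc f k = 0) : f =ᵐ[tor d] 0 := by
  set F : UnitAddTorus (Fin d) → ℂ := fun t => f fun j => psi (t j) with hFdef
  have hF : Integrable F volume := (mp_Psi.integrable_comp hf.aestronglyMeasurable).2 hf
  have hk : ∀ k : Fin d → ℤ, ∫ t, UnitAddTorus.mFourier k t * F t = 0 := by
    intro k
    have h1 := h (-k)
    unfold fc at h1
    rw [neg_neg] at h1
    have hm : AEStronglyMeasurable (fun x => f x * ex k x) (Measure.map
        (fun (t : UnitAddTorus (Fin d)) j => psi (t j)) volume) := by
      rw [mp_Psi.map_eq]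
      apply hf.aestronglyMeasurable.mul
      apply Continuous.aestronglyMeasurable
      unfold ex
      fun_prop
    rw [← mp_Psi.map_eq, integral_map mp_Psi.measurable.aemeasurable hm] at h1
    rw [← h1]
    congr 1
    funext t
    rw [mFourier_eq, mul_comm]
  have h0 := ae_zero_of_cont hF (integral_cont_zero hF hk)
  have h1 := mp_Phi.quasiMeasurePreserving.ae_eq_comp h0
  filter_upwards [h1, ae_box] with x hx hb
  have h2 : f (fun j => psi (phi (x j))) = 0 := hx
  have h3 : (fun j => psi (phi (x j))) = x := funext hb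
  rw [h3] at h2
  exact h2

end Pool.Agent.Helper89.SB
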