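import Mathlib

/-!
An infinite lattice generated by four elements in which every finite antichain
generates a finite sublattice.
-/

set_option autoImplicit false

namespace Pool.Agent.Helper89.AntichainLattice

/-- Raw elements.
`w i e j` is a point with coordinates `(i, e, j)`, `v i e` is a point with last coordinate
infinite, `g` is a top for all the points, `a i j` is `f1 ⊔ w i (min i 1) j`,
`b k` is `f2 ⊔ w (k+1) 0 k`, and `t` is the top. -/
inductive Raw : Type
  | w (i e j : ℕ) : Raw
  | v (i e : ℕ) : Raw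
  | g : Raw
  | a (i j : ℕ) : Raw
  | b (k : ℕ) : Raw
  | t : Raw

open Raw

/-- The raw elements that belong to the lattice. -/
def Valid : Raw → Prop
  | w i e j => e ≤ 1 ∧ e ≤ i ∧ i + e ≤ j + 1
  | v i e => e ≤ 1 ∧ e ≤ i
  | g => True
  | a i j => i ≤ j
  | b _ => True
  | t => True

/-- The order on raw elements. -/
def le : Raw → Raw → Prop
  | w i e j, w i' e' j' => i ≤ i' ∧ e ≤ e' ∧ j ≤ j'
  | w i e _, v i' e' => i ≤ i' ∧ e ≤ e'
  | w _ _ _, g => True
  | w i e j, a i' j' => i ≤ i' ∧ e ≤ i' ∧ j ≤ j'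
  | w i e j, b k => i ≤ k + 1 ∧ e ≤ 0 ∧ j ≤ k
  | w _ _ _, t => True
  | v _ _, w _ _ _ => False
  | v i e, v i' e' => i ≤ i' ∧ e ≤ e'
  | v _ _, g => True
  | v _ _, a _ _ => False
  | v _ _, b _ => False
  | v _ _, t => True
  | g, w _ _ _ => False
  | g, v _ _ => False
  | g, g => True
  | g, a _ _ => False
  | g, b _ => False
  | g, t => True
  | a _ _, w _ _ _ => False
  | a _ _, v _ _ => False
  | a _ _, g => False
  | a i j, a i' j' => i ≤ i' ∧ j ≤ j'
  | a _ _, b _ => False
  | a _ _, t => True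
  | b _, w _ _ _ => False
  | b _, v _ _ => False
  | b _, g => False
  | b _, a _ _ => False
  | b k, b k' => k ≤ k'
  | b _, t => True
  | t, w _ _ _ => False
  | t, v _ _ => False
  | t, g => False
  | t, a _ _ => False
  | t, b _ => False
  | t, t => True

/-- The join on raw elements. -/
def sup : Raw → Raw → Raw
  | w i e j, w i' e' j' =>
      w (max i i') (max e e') (max (max j j') (max i i' + max e e' - 1))
  | w i e _, v i' e' => v (max i i') (max e e')
  | w _ _ _, g => g
  | w i _ j, a i' j' => a (max i i') (max (max j j') i)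
  | w _ e j, b k => if e = 0 then b (max j k) else t
  | w _ _ _, t => t
  | v i e, w i' e' _ => v (max i i') (max e e')
  | v i e, v i' e' => v (max i i') (max e e')
  | v _ _, g => g
  | v _ _, a _ _ => t
  | v _ _, b _ => t
  | v _ _, t => t
  | g, w _ _ _ => g
  | g, v _ _ => g
  | g, g => g
  | g, a _ _ => t
  | g, b _ => t
  | g, t => t
  | a i j, w i' _ j' => a (max i i') (max (max j j') i')
  | a _ _, v _ _ => t
  | a _ _, g => t
  | a i j, a i' j' => a (max i i') (max j j')
  | a _ _, b _ => t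
  | a _ _, t => t
  | b k, w _ e j => if e = 0 then b (max k j) else t
  | b _, v _ _ => t
  | b _, g => t
  | b _, a _ _ => t
  | b k, b k' => b (max k k')
  | b _, t => t
  | t, _ => t

/-- The meet on raw elements. -/
def inf : Raw → Raw → Raw
  | w i e j, w i' e' j' => w (min i i') (min e e') (min j j')
  | w i e j, v i' e' => w (min i i') (min e e') j
  | w i e j, g => w i e j
  | w i e j, a i' j' => w (min i i') (min e i') (min j j')
  | w i _ j, b k => w (min i (k + 1)) 0 (min j k)
  | w i e j, t => w i e j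
  | v i e, w i' e' j' => w (min i i') (min e e') j'
  | v i e, v i' e' => v (min i i') (min e e')
  | v i e, g => v i e
  | v i e, a i' j' => w (min i i') (min e i') j'
  | v i _, b k => w (min i (k + 1)) 0 k
  | v i e, t => v i e
  | g, w i e j => w i e j
  | g, v i e => v i e
  | g, g => g
  | g, a i j => w i (min i 1) j
  | g, b k => w (k + 1) 0 k
  | g, t => g
  | a i j, w i' e' j' => w (min i i') (min i e') (min j j')
  | a i j, v i' e' => w (min i i') (min i e') j
  | a i j, g => w i (min i 1) j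
  | a i j, a i' j' => a (min i i') (min j j')
  | a i j, b k => w (min i (k + 1)) 0 (min j k)
  | a i j, t => a i j
  | b k, w i _ j => w (min (k + 1) i) 0 (min k j)
  | b k, v i _ => w (min (k + 1) i) 0 k
  | b k, g => w (k + 1) 0 k
  | b k, a i j => w (min (k + 1) i) 0 (min k j)
  | b k, b k' => b (min k k')
  | b k, t => b k
  | t, x => x

theorem valid_sup (p q : Raw) (hp : Valid p) (hq : Valid q) : Valid (sup p q) := by
  cases p <;> cases q <;> simp only [Valid, sup] at * <;>
    first
      | trivial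
      | omega
      | (split_ifs <;> simp only [Valid] <;> omega)

theorem valid_inf (p q : Raw) (hp : Valid p) (hq : Valid q) : Valid (inf p q) := by
  cases p <;> cases q <;> simp only [Valid, inf] at * <;>
    first
      | trivial
      | omega

theorem le_refl' (p : Raw) : le p p := by
  cases p <;> simp [le]

theorem le_trans' (p q r : Raw) (hp : Valid p) (hq : Valid q) (hr : Valid r)
    (h1 : le p q) (h2 : le q r) : le p r := by
  cases p <;> cases q <;> simp only [le] at h1 <;> cases r <;> simp only [le] at h2 ⊢ <;>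
    simp only [Valid] at hp hq hr <;> omega

theorem le_antisymm' (p q : Raw) (h1 : le p q) (h2 : le q p) : p = q := by
  cases p <;> cases q <;> simp only [le] at h1 h2 <;>
    first
      | rfl
      | (simp only [w.injEq, v.injEq, a.injEq, b.injEq]; omega)

theorem le_sup_left' (p q : Raw) (hp : Valid p) (hq : Valid q) : le p (sup p q) := by
  cases p <;> cases q <;> simp only [Valid, sup] at * <;>
    first
      | (simp only [le]; done)
      | (simp only [le]; omega)
      | (split_ifs <;> simp only [le] <;> omega)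

theorem le_sup_right' (p q : Raw) (hp : Valid p) (hq : Valid q) : le q (sup p q) := by
  cases p <;> cases q <;> simp only [Valid, sup] at * <;>
    first
      | (simp only [le]; done)
      | (simp only [le]; omega)
      | (split_ifs <;> simp only [le] <;> omega)

theorem sup_le' (p q r : Raw) (hp : Valid p) (hq : Valid q) (hr : Valid r)
    (h1 : le p r) (h2 : le q r) : le (sup p q) r := by
  cases p <;> cases r <;> simp only [le] at h1 <;> cases q <;> simp only [le] at h2 <;>
    simp only [Valid, sup] at * <;>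
    first
      | (simp only [le]; done)
      | (simp only [le]; omega)
      | (split_ifs <;> simp only [le] <;> omega)

theorem inf_le_left' (p q : Raw) (hp : Valid p) (hq : Valid q) : le (inf p q) p := by
  cases p <;> cases q <;> simp only [Valid, inf] at * <;>
    first
      | (simp only [le]; done)
      | (simp only [le]; omega)

theorem inf_le_right' (p q : Raw) (hp : Valid p) (hq : Valid q) : le (inf p q) q := by
  cases p <;> cases q <;> simp only [Valid, inf] at * <;>
    first
      | (simp only [le]; done)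
      | (simp only [le]; omega)

theorem le_inf' (p q r : Raw) (hp : Valid p) (hq : Valid q) (hr : Valid r)
    (h1 : le r p) (h2 : le r q) : le r (inf p q) := by
  cases p <;> cases r <;> simp only [le] at h1 <;> cases q <;> simp only [le] at h2 <;>
    simp only [Valid, inf] at * <;>
    first
      | (simp only [le]; done)
      | (simp only [le]; omega)

/-- The underlying type of the lattice. -/
def Lat : Type := {r : Raw // Valid r}

instance : Lattice Lat where
  le x y := le x.1 y.1
  sup x y := ⟨sup x.1 y.1, valid_sup _ _ x.2 y.2⟩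
  inf x y := ⟨inf x.1 y.1, valid_inf _ _ x.2 y.2⟩
  le_refl x := le_refl' _
  le_trans x y z h1 h2 := le_trans' _ _ _ x.2 y.2 z.2 h1 h2
  le_antisymm x y h1 h2 := Subtype.ext (le_antisymm' _ _ h1 h2)
  le_sup_left x y := le_sup_left' _ _ x.2 y.2
  le_sup_right x y := le_sup_right' _ _ x.2 y.2
  sup_le x y z h1 h2 := sup_le' _ _ _ x.2 y.2 z.2 h1 h2
  inf_le_left x y := inf_le_left' _ _ x.2 y.2
  inf_le_right x y := inf_le_right' _ _ x.2 y.2
  le_inf x y z h1 h2 := le_inf' _ _ _ y.2 z.2 x.2 h1 h2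

theorem sup_val (x y : Lat) : (x ⊔ y).1 = sup x.1 y.1 := rfl
theorem inf_val (x y : Lat) : (x ⊓ y).1 = inf x.1 y.1 := rfl
theorem le_val (x y : Lat) : x ≤ y ↔ le x.1 y.1 := Iff.rfl

/-- All coordinates at most `N`. -/
def Bd (N : ℕ) : Raw → Prop
  | w i e j => i ≤ N + 1 ∧ e ≤ 1 ∧ j ≤ N + 1
  | v i e => i ≤ N + 1 ∧ e ≤ 1
  | g => True
  | a i j => i ≤ N + 1 ∧ j ≤ N + 1
  | b k => k ≤ N + 1
  | t => True

theorem finite_bd (N : ℕ) : {r : Raw | Bd N r}.Finite := by
  have h1 : (Set.image (fun p : ℕ × ℕ × ℕ => w p.1 p.2.1 p.2.2)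
      (Set.Iic (N + 1, 1, N + 1))).Finite := (Set.finite_Iic _).image _
  have h2 : (Set.image (fun p : ℕ × ℕ => v p.1 p.2) (Set.Iic (N + 1, 1))).Finite :=
    (Set.finite_Iic _).image _
  have h3 : (Set.image (fun p : ℕ × ℕ => a p.1 p.2) (Set.Iic (N + 1, N + 1))).Finite :=
    (Set.finite_Iic _).image _
  have h4 : (Set.image (fun p : ℕ => b p) (Set.Iic (N + 1))).Finite :=
    (Set.finite_Iic _).image _
  refine ((((h1.union h2).union h3).union h4).union (Set.toFinite {g, t})).subset ?_
  intro r hr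
  cases r with
  | w i e j =>
      exact Or.inl (Or.inl (Or.inl (Or.inl ⟨(i, e, j), by
        simpa [Bd, Prod.mk_le_mk] using hr, rfl⟩)))
  | v i e =>
      exact Or.inl (Or.inl (Or.inl (Or.inr ⟨(i, e), by
        simpa [Bd, Prod.mk_le_mk] using hr, rfl⟩)))
  | g => exact Or.inr (by simp)
  | a i j =>
      exact Or.inl (Or.inl (Or.inr ⟨(i, j), by
        simpa [Bd, Prod.mk_le_mk] using hr, rfl⟩))
  | b k => exact Or.inl (Or.inr ⟨k, by simpa [Bd] using hr, rfl⟩)
  | t => exact Or.inr (by simp)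

theorem finite_lat_bd (N : ℕ) : {x : Lat | Bd N x.1}.Finite :=
  (finite_bd N).preimage (Subtype.val_injective.injOn)

/-- The finite sublattices avoiding `g`. -/
def P (N : ℕ) : Raw → Prop
  | w i _ j => i ≤ N ∧ j ≤ N
  | v i _ => i ≤ N
  | g => False
  | a _ j => j ≤ N
  | b k => k ≤ N
  | t => True

/-- The finite sublattices containing `g`. -/
def Q (N : ℕ) : Raw → Prop
  | w _ e j => j ≤ N + 1 ∧ (e = 0 → j ≤ N)
  | v _ _ => False
  | g => True
  | a i j => j ≤ N + 1 ∧ (i = 0 → j ≤ N)
  | b k => k ≤ N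
  | t => True

theorem P_bd (N : ℕ) (r : Raw) (h : Valid r) (hr : P N r) : Bd N r := by
  cases r <;> simp only [P, Bd, Valid] at * <;> omega

theorem Q_bd (N : ℕ) (r : Raw) (h : Valid r) (hr : Q N r) : Bd N r := by
  cases r <;> simp only [Q, Bd, Valid] at * <;> omega

theorem P_sup (N : ℕ) (p q : Raw) (hp : Valid p) (hq : Valid q) (h1 : P N p) (h2 : P N q) :
    P N (sup p q) := by
  cases p <;> cases q <;> simp only [Valid, sup] at * <;>
    first
      | (simp only [P] at *; done)
      | (simp only [P] at *; omega)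
      | (split_ifs <;> simp only [P] at * <;> omega)

theorem P_inf (N : ℕ) (p q : Raw) (hp : Valid p) (hq : Valid q) (h1 : P N p) (h2 : P N q) :
    P N (inf p q) := by
  cases p <;> cases q <;> simp only [Valid, inf] at * <;>
    first
      | (simp only [P] at *; done)
      | (simp only [P] at *; omega)

theorem Q_sup (N : ℕ) (p q : Raw) (hp : Valid p) (hq : Valid q) (h1 : Q N p) (h2 : Q N q) :
    Q N (sup p q) := by
  cases p <;> cases q <;> simp only [Valid, sup] at * <;>
    first
      | (simp only [Q] at *; done)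
      | (simp only [Q] at *; omega)
      | (split_ifs <;> simp only [Q] at * <;> omega)

theorem Q_inf (N : ℕ) (p q : Raw) (hp : Valid p) (hq : Valid q) (h1 : Q N p) (h2 : Q N q) :
    Q N (inf p q) := by
  cases p <;> cases q <;> simp only [Valid, inf] at * <;>
    first
      | (simp only [Q] at *; done)
      | (simp only [Q] at *; omega)

/-- The four generators. -/
def f1 : Lat := ⟨a 0 0, by simp [Valid]⟩
def f2 : Lat := ⟨b 0, by simp [Valid]⟩
def g1 : Lat := ⟨v 0 0, by simp [Valid]⟩
def g2 : Lat := ⟨g, by simp [Valid]⟩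

theorem f1_val : f1.1 = a 0 0 := rfl
theorem f2_val : f2.1 = b 0 := rfl
theorem g1_val : g1.1 = v 0 0 := rfl
theorem g2_val : g2.1 = g := rfl

theorem gen_aux (S : Set Lat) (h1 : f1 ∈ S) (h2 : f2 ∈ S) (h3 : g1 ∈ S) (h4 : g2 ∈ S)
    (hs : SupClosed S) (hi : InfClosed S) (k : ℕ) :
    (∃ x ∈ S, x.1 = w (k + 1) 0 k) ∧ (∃ x ∈ S, x.1 = w 0 0 k) := by
  induction k with
  | zero =>
      refine ⟨⟨f2 ⊓ g2, hi h2 h4, ?_⟩, ⟨f1 ⊓ g2, hi h1 h4, ?_⟩⟩
      · simp [inf_val, f2_val, g2_val, inf]
      · simp [inf_val, f1_val, g2_val, inf]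
  | succ k ih =>
      obtain ⟨⟨x, hx, hx'⟩, -⟩ := ih
      have hs1 : ((f1 ⊔ x) ⊓ g2) ⊓ g1 ∈ S := hi (hi (hs h1 hx) h4) h3
      have hs1' : (((f1 ⊔ x) ⊓ g2) ⊓ g1).1 = w 0 0 (k + 1) := by
        simp [inf_val, sup_val, f1_val, g2_val, g1_val, hx', inf, sup]
      refine ⟨⟨(f2 ⊔ (((f1 ⊔ x) ⊓ g2) ⊓ g1)) ⊓ g2, hi (hs h2 hs1) h4, ?_⟩, ⟨_, hs1, hs1'⟩⟩
      rw [inf_val, sup_val, hs1']
      simp [f2_val, g2_val, inf, sup]

theorem gen_aux2 (S : Set Lat) (h1 : f1 ∈ S) (h2 : f2 ∈ S) (h3 : g1 ∈ S) (h4 : g2 ∈ S)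
    (hs : SupClosed S) (hi : InfClosed S) (i e : ℕ) (he : e ≤ 1) (hei : e ≤ i) :
    (∃ x ∈ S, x.1 = w i e (i + e - 1)) := by
  obtain he0 | he1 : e = 0 ∨ e = 1 := by omega
  · subst he0
    cases i with
    | zero => simpa using (gen_aux S h1 h2 h3 h4 hs hi 0).2
    | succ i => simpa using (gen_aux S h1 h2 h3 h4 hs hi i).1
  · subst he1
    obtain ⟨k, rfl⟩ : ∃ k, i = k + 1 := ⟨i - 1, by omega⟩
    obtain ⟨⟨x, hx, hx'⟩, -⟩ := gen_aux S h1 h2 h3 h4 hs hi k
    refine ⟨(f1 ⊔ x) ⊓ g2, hi (hs h1 hx) h4, ?_⟩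
    simp [inf_val, sup_val, f1_val, g2_val, hx', inf, sup]

theorem gen_all (S : Set Lat) (h1 : f1 ∈ S) (h2 : f2 ∈ S) (h3 : g1 ∈ S) (h4 : g2 ∈ S)
    (hs : SupClosed S) (hi : InfClosed S) (x : Lat) : x ∈ S := by
  obtain ⟨r, hr⟩ := x
  have key : ∀ y ∈ S, y.1 = r → (⟨r, hr⟩ : Lat) ∈ S := by
    intro y hy hyr
    have : y = ⟨r, hr⟩ := Subtype.ext hyr
    rwa [← this]
  cases r with
  | w i e j =>
      simp only [Valid] at hr
      obtain ⟨x, hx, hx'⟩ := gen_aux2 S h1 h2 h3 h4 hs hi i e hr.1 hr.2.1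
      obtain ⟨y, hy, hy'⟩ := (gen_aux S h1 h2 h3 h4 hs hi j).2
      refine key (x ⊔ y) (hs hx hy) ?_
      simp only [sup_val, hx', hy', sup, w.injEq]
      omega
  | v i e =>
      simp only [Valid] at hr
      obtain ⟨x, hx, hx'⟩ := gen_aux2 S h1 h2 h3 h4 hs hi i e hr.1 hr.2
      refine key (x ⊔ g1) (hs hx h3) ?_
      simp only [sup_val, hx', g1_val, sup, v.injEq]
      omega
  | g => exact key g2 h4 rfl
  | a i j =>
      simp only [Valid] at hr
      obtain ⟨x, hx, hx'⟩ := gen_aux2 S h1 h2 h3 h4 hs hi i 0 (by omega) (by omega)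
      obtain ⟨y, hy, hy'⟩ := (gen_aux S h1 h2 h3 h4 hs hi j).2
      refine key (f1 ⊔ (x ⊔ y)) (hs h1 (hs hx hy)) ?_
      simp only [sup_val, hx', hy', f1_val, sup, a.injEq]
      omega
  | b k =>
      obtain ⟨y, hy, hy'⟩ := (gen_aux S h1 h2 h3 h4 hs hi k).2
      refine key (f2 ⊔ y) (hs h2 hy) ?_
      simp [sup_val, hy', f2_val, sup]
  | t => exact key (f1 ⊔ f2) (hs h1 h2) (by simp [sup_val, f1_val, f2_val, sup])

instance : Infinite Lat :=
  Infinite.of_injective (fun k : ℕ => (⟨b k, by simp [Valid]⟩ : Lat)) (by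
    intro k k' h
    have := congrArg Subtype.val h
    simpa using this)

/-- A finite set of elements has bounded coordinates. -/
theorem exists_bound (A : Set Lat) (hA : A.Finite) : ∃ N, ∀ x ∈ A, x.1 ≠ g → P N x.1 := by
  have hb : ∀ x : Lat, ∃ n, x.1 ≠ g → P n x.1 := by
    intro x
    obtain ⟨r, hr⟩ := x
    cases r with
    | w i e j => exact ⟨i + j, fun _ => by simp [P]⟩
    | v i e => exact ⟨i, fun _ => by simp [P]⟩
    | g => exact ⟨0, fun h => absurd rfl h⟩
    | a i j => exact ⟨j, fun _ => by simp [P]⟩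
    | b k => exact ⟨k, fun _ => by simp [P]⟩
    | t => exact ⟨0, fun _ => by simp [P]⟩
  choose f hf using hb
  obtain ⟨N, hN⟩ := (hA.image f).bddAbove
  refine ⟨N, fun x hx hxg => ?_⟩
  have h1 : f x ≤ N := hN ⟨x, hx, rfl⟩
  have h2 := hf x hxg
  generalize x.1 = r at h2 ⊢
  cases r <;> simp only [P] at h2 ⊢ <;> omega

theorem antichain_finite (A : Set Lat) (hA : A.Finite) (hac : IsAntichain (· ≤ ·) A) :
    (⋂₀ {S : Set Lat | A ⊆ S ∧ SupClosed S ∧ InfClosed S}).Finite := by
  obtain ⟨N, hN⟩ := exists_bound A hA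
  by_cases hg : g2 ∈ A
  · have hmem : {x : Lat | Q N x.1} ∈
        {S : Set Lat | A ⊆ S ∧ SupClosed S ∧ InfClosed S} := by
      refine ⟨?_, ?_, ?_⟩
      · intro x hx
        by_cases hxg : x = g2
        · rw [hxg]; simp [g2_val, Q]
        · have hxg' : x.1 ≠ g := fun h => hxg (Subtype.ext h)
          have h1 := hN x hx hxg'
          have h2 : ¬ x ≤ g2 := fun h => hac hx hg hxg h
          rw [le_val] at h2
          rw [g2_val] at h2
          change Q N x.1
          generalize x.1 = r at h1 h2 ⊢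
          cases r <;> simp only [P, Q, le] at h1 h2 ⊢ <;> first | omega | trivial
      · intro x hx y hy
        exact Q_sup N _ _ x.2 y.2 hx hy
      · intro x hx y hy
        exact Q_inf N _ _ x.2 y.2 hx hy
    exact (finite_lat_bd N).subset
      (fun x hx => Q_bd N _ x.2 (Set.sInter_subset_of_mem hmem hx))
  · have hmem : {x : Lat | P N x.1} ∈
        {S : Set Lat | A ⊆ S ∧ SupClosed S ∧ InfClosed S} := by
      refine ⟨?_, ?_, ?_⟩
      · intro x hx
        exact hN x hx (fun h => hg (by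
          have : x = g2 := Subtype.ext h
          rwa [← this]))
      · intro x hx y hy
        exact P_sup N _ _ x.2 y.2 hx hy
      · intro x hx y hy
        exact P_inf N _ _ x.2 y.2 hx hy
    exact (finite_lat_bd N).subset
      (fun x hx => P_bd N _ x.2 (Set.sInter_subset_of_mem hmem hx))

end Pool.Agent.Helper89.AntichainLattice
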